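import Pool.Agent.H67.BB.LeastPrime

set_option autoImplicit false

/-!
# The zeros of all Dirichlet L-functions and the largest least prime in progressions modulo `d`

On the generalised Riemann hypothesis `p(d) = O((φ(d) log d)²)`.  We show that nothing better, in particular not
Wagstaff's asymptotic `p(d) ∼ φ(d) (log d)²`, follows from the position of the zeros, even from the zeros of the
L-functions of all characters together and together with the size of the L-functions on and to the right of the
critical line: for every `h → ∞`, as slowly as we like, there is a system of generalised primes (in the integers) for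
which the least element in some reduced class modulo `d` exceeds `(φ(d) log d)² / h(d)` for infinitely many `d`, and
which is extremely close to the primes.  Only `ε √x` of the primes up to `x` are moved, each prime `p` by at most `f p`,
where `f → ∞` as slowly as we like, each modulus sees only finitely many changes of residues, and for every Dirichlet
character the Euler product is the Dirichlet L-function times a factor `G`, holomorphic and without zeros in
`Re s > 0`, with `|G - 1| ≤ ε` in the half plane `Re s ≥ 1 / 2`, with the same `ε` for all moduli; the number of the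
generalised integers up to `x` is `ρ x` with an error of at most `(1 + ε) √x`.

Proof.  For a very sparse sequence of primes `q` the primes `p ≡ 1` modulo `q` up to `(φ(q) log q)² / h(q)` are moved to
composite numbers nearby, in the same class modulo `j!`, but in another class modulo `q`.  By the inequality of Brun
and Titchmarsh the sum of `1 / √p` over the moved primes is small.
-/

namespace Pool.Agent.Results.MP_458f0b_nt.ZerosAndLeastPrimes

open Filter Topology

/-- The generalised integer of `n`: in the factorisation of `n` every prime `p` is replaced by `φ p`. -/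
noncomputable def generalised (φ : ℕ → ℕ) (n : ℕ) : ℕ := n.factorization.prod fun p k => (φ p) ^ k

/-- Let `h` and `f ≥ 0` tend to infinity and `ε > 0`.  There is a map `φ` on the primes with values `≥ 2` such that
(1) `φ` is injective on the primes, `φ p = p` for all but at most `ε √x` primes `p ≤ x`, for all `x ≥ 0`,
`|φ p - p| ≤ f p` for all primes `p`, and for each `q ≥ 1`: `φ p ≡ p` modulo `q` for all but finitely many `p`;
(2) for every Dirichlet character `χ` the Euler product over the `φ p` is `L(s, χ) G(s)` for `Re s > 1`, where `G` is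
holomorphic without zeros in `Re s > 0`, and `|G(s) - 1| ≤ ε` for `Re s ≥ 1 / 2`;
(3) there is `ρ` with `|ρ - 1| ≤ ε` such that for all `x ≥ 0` the number of the generalised integers up to `x`, that
is of the `n ≥ 1` with `generalised φ n ≤ x`, differs from `ρ x` by at most `(1 + ε) √x`;
(4) for infinitely many `d` there is `a`, `1 ≤ a < d`, coprime to `d` such that every `φ p ≡ a` modulo `d` is larger than
`(φ(d) log d)² / h(d)`, where the `φ` of `φ(d)` is Euler's function. -/
theorem result (h f : ℕ → ℝ) (hh : Tendsto h atTop atTop) (hf0 : ∀ n, 0 ≤ f n) (hf : Tendsto f atTop atTop)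
    (ε : ℝ) (hε : 0 < ε) :
    ∃ φ : ℕ → ℕ,
    (Set.InjOn φ {p | p.Prime} ∧ (∀ p : ℕ, p.Prime → 2 ≤ φ p) ∧
      (∀ x : ℝ, 0 ≤ x → ({p : ℕ | p.Prime ∧ (p : ℝ) ≤ x ∧ φ p ≠ p}.ncard : ℝ) ≤ ε * √x) ∧
      (∀ p : ℕ, p.Prime → |(φ p : ℝ) - p| ≤ f p) ∧
      ∀ q : ℕ, 0 < q → {p : ℕ | p.Prime ∧ ¬ φ p ≡ p [MOD q]}.Finite) ∧
    (∀ (q : ℕ) [NeZero q] (χ : DirichletCharacter ℂ q), ∃ G : ℂ → ℂ,
      DifferentiableOn ℂ G {s : ℂ | 0 < s.re} ∧ (∀ s : ℂ, 0 < s.re → G s ≠ 0) ∧
      (∀ s : ℂ, 1 / 2 ≤ s.re → ‖G s - 1‖ ≤ ε) ∧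
      ∀ s : ℂ, 1 < s.re → HasProd (fun p : Nat.Primes => (1 - χ (φ p) * (φ p : ℂ) ^ (-s))⁻¹)
        (χ.LFunction s * G s)) ∧
    (∃ ρ : ℝ, |ρ - 1| ≤ ε ∧ ∀ x : ℝ, 0 ≤ x →
      |({n : ℕ | n ≠ 0 ∧ (generalised φ n : ℝ) ≤ x}.ncard : ℝ) - ρ * x| ≤ (1 + ε) * √x) ∧
    {d : ℕ | ∃ a : ℕ, 1 ≤ a ∧ a < d ∧ a.Coprime d ∧ ∀ p : ℕ, p.Prime → φ p ≡ a [MOD d] →
      ((Nat.totient d : ℝ) * Real.log d) ^ 2 / h d < φ p}.Infinite := by
  obtain ⟨ε', hε', h1, h2, h3⟩ : ∃ ε' : ℝ, 0 < ε' ∧ Real.exp (9 * ε') - 1 ≤ ε ∧
      Real.exp (9 * ε') ≤ 1 + ε ∧ ε' ≤ ε := by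
    have hl := Real.log_pos (by linarith : 1 < 1 + ε)
    have hl2 := Real.log_le_sub_one_of_pos (by linarith : 0 < 1 + ε)
    refine ⟨Real.log (1 + ε) / 9, by positivity, ?_, ?_, by linarith⟩
    · have : 9 * (Real.log (1 + ε) / 9) = Real.log (1 + ε) := by ring
      rw [this, Real.exp_log (by linarith)]; linarith
    · have : 9 * (Real.log (1 + ε) / 9) = Real.log (1 + ε) := by ring
      rw [this, Real.exp_log (by linarith)]
  have hmin : Tendsto (fun n : ℕ => min (h n) (Real.log n)) atTop atTop := by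
    rw [tendsto_atTop]
    intro b
    filter_upwards [hh.eventually_ge_atTop b,
      (Real.tendsto_log_atTop.comp tendsto_natCast_atTop_atTop).eventually_ge_atTop b] with n h1 h2
    exact le_min h1 h2
  obtain ⟨φ, X, q, L⟩ := Pool.Agent.H67.BB.exists_LP hmin (fun n => min_le_right _ _) hε' f hf0 hf
  have hM := L.move hε'
  have hS := L.tsum_le hε'
  have hexp : Real.exp (9 * ∑' r, Pool.Agent.H67.BB.uu φ r) ≤ Real.exp (9 * ε') := by gcongr
  refine ⟨φ, ⟨L.out.inj, hM.two, fun x hx => ?_, L.out.dispf, hM.fin⟩, fun k _ χ => ?_, ?_, ?_⟩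
  · have e1 : Pool.Agent.H67.BB.uS (1 / 2) φ = Pool.Agent.H67.BB.uu φ := by
      funext r
      unfold Pool.Agent.H67.BB.uS Pool.Agent.H67.BB.uu
      split_ifs
      · rfl
      · rw [Real.rpow_neg (by positivity), ← Real.sqrt_eq_rpow, one_div]
    have e2 := Pool.Agent.H67.BB.card_moved_le (φ := φ) (σ := 1 / 2) (by rw [e1]; exact L.summable hε')
      (by norm_num) hx
    rw [e1, ← Real.sqrt_eq_rpow] at e2
    refine e2.trans (mul_le_mul_of_nonneg_right (hS.trans h3) (Real.sqrt_nonneg _))
  · obtain ⟨G, hG1, hG2, hG3, hG4⟩ := Pool.Agent.H67.BB.euler hM k χ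
    exact ⟨G, hG1, hG2, fun s hs => (hG3 s hs).trans (by linarith), hG4⟩
  · obtain ⟨ρ, hρ, hx⟩ := Pool.Agent.H67.BB.count hM
    refine ⟨ρ, hρ.trans (by linarith), fun y hy0 => (hx y hy0).trans ?_⟩
    gcongr
    linarith
  · refine Set.infinite_of_forall_exists_gt fun n => ⟨q n, ⟨1, le_rfl, (L.prime n).one_lt, Nat.coprime_one_left _,
      fun p hp hc => ?_⟩, ?_⟩
    · have e1 := L.empty n hp hc
      have hq1 : (1 : ℝ) < q n := by exact_mod_cast (L.prime n).one_lt
      have hlq : 0 < Real.log (q n) := Real.log_pos hq1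
      rw [Nat.totient_prime (L.prime n), Nat.cast_sub (L.prime n).one_lt.le, Nat.cast_one]
      have e2 : (((q n : ℝ) - 1) * Real.log (q n)) ^ 2 / min (h (q n)) (Real.log (q n)) < φ p := by
        have e3 := Nat.lt_floor_add_one ((((q n : ℝ) - 1) * Real.log (q n)) ^ 2 / min (h (q n)) (Real.log (q n)))
        unfold Pool.Agent.H67.BB.YY at e1
        have e4 : ((⌊(((q n : ℝ) - 1) * Real.log (q n)) ^ 2 / min (h (q n)) (Real.log (q n))⌋₊ : ℕ) : ℝ) + 1 ≤ φ p := by
          exact_mod_cast e1
        linarith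
      rcases le_or_gt (h (q n)) 0 with hc0 | hc0
      · have e3 : (((q n : ℝ) - 1) * Real.log (q n)) ^ 2 / h (q n) ≤ 0 := div_nonpos_of_nonneg_of_nonpos (by positivity) hc0
        have e4 : (0 : ℝ) < φ p := by exact_mod_cast (by have := hM.two p hp; omega : 0 < φ p)
        linarith
      · have e3 : 0 < min (h (q n)) (Real.log (q n)) := lt_min hc0 hlq
        refine lt_of_le_of_lt ?_ e2
        apply div_le_div_of_nonneg_left (by positivity) e3 (min_le_left _ _)
    · have e1 := L.large n
      have e2 : n ≤ X n := L.out.mono.le_apply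
      omega

end Pool.Agent.Results.MP_458f0b_nt.ZerosAndLeastPrimes
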